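import Pool.Agent.H431.OC.Log5

/-!
# The truncated inequality for points of bounded degree: one pair suffices

`SinglePair k f`: the inequality of Vojta's conjecture with truncated counting function for ONE pair
`(C, D)` over one number field `k`: the (hyper)elliptic curve `C : y ^ 2 = f(x)`, where `f` has
degree `n ≥ 3` and no multiple roots, and the reduced divisor `D` of the points at infinity (one
point if `n` is odd, two points if `n` is even). Here `(n - 2) / 2 x^*(∞)` is linearly equivalent to
`K_C + D`, so that `h_{K + D}(P) = (n - 2) / 2 h(x(P)) + O(1)`. For `n = 3` this is an elliptic curve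
and its origin.

`CurveInequality r`: the inequality of the conjecture for ALL smooth projective curves `C`
over all number fields `k` and all reduced divisors `D` on `C`, for the points of degree at most `r`
over `ℚ`. The curve is given by a finite map `t : C → ℙ¹` over `k` which is unramified outside the
fibres over `0`, `1`, `-1` and for which `D` is contained in these fibres (by Belyi's theorem there is
such a map for all `C` and `D`). Let `N` be the degree of `t` and `A` the ring of the functions on
`C` with poles only over `∞`: a Dedekind domain, finite over `k[t]`. If `F_j` is the ideal of the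
points over the `j`-th of the points `0`, `1`, `-1` which are not points of `D`, then
`deg (K_C + D) / N = 1 - (∑_j dim (A / F_j)) / N`.
The points `P` of `C` (not over `∞`) over a number field `L` are the homomorphisms `A → L` over `k`.
-/

set_option autoImplicit false

namespace Pool.Agent.Results.MP_44a246_nt.OnePairSuffices

open Polynomial IsDedekindDomain NumberField

/-- The absolute logarithmic height of the point `x` of the line. -/
noncomputable def height {L : Type} [Field L] [NumberField L] (x : L) : ℝ :=
  Height.logHeight₁ x / Module.finrank ℚ L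

/-- The (absolute) logarithmic discriminant `d(L) = log |disc L| / [L : ℚ]`. -/
noncomputable def logDisc (L : Type) [Field L] [NumberField L] : ℝ :=
  Real.log |(NumberField.discr L : ℝ)| / Module.finrank ℚ L

open Classical in
/-- The (absolute) truncated counting function `N^{(1)}(D, P)` of the point `P = (x, y)` of the curve
`y ^ 2 = f(x)` and the divisor `D` of the points at infinity: the sum of `log N(w) / [L : ℚ]` over
the primes `w` of `L` with `|x|_w > 1`. -/
noncomputable def infinityCount {L : Type} [Field L] [NumberField L] (x : L) : ℝ :=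
  (∑ᶠ w : HeightOneSpectrum (𝓞 L),
    if 1 < w.valuation L x then Real.log (Ideal.absNorm w.asIdeal) else 0) / Module.finrank ℚ L

/-- The truncated inequality for the curve `y ^ 2 = f(x)` over `k` and the divisor `D` of its points
at infinity: for all `ν` and `ε > 0` there is `c` such that
`((n - 2) / 2 - ε) h(x) ≤ N^{(1)}(D, P) + d(L) + c`, where `n` is the degree of `f`, for all number
fields `L ⊇ k` of degree at most `ν` and all points `P = (x, y)` of the curve over `L`. -/
def SinglePair (k : Type) [Field k] [NumberField k] (f : k[X]) : Prop :=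
  ∀ (ν : ℕ) (ε : ℝ), 0 < ε → ∃ c : ℝ,
    ∀ (L : Type) [Field L] [NumberField L] [Algebra k L], Module.finrank ℚ L ≤ ν →
    ∀ x y : L, y ^ 2 = aeval x f →
      (((f.natDegree : ℝ) - 2) / 2 - ε) * height x ≤ infinityCount x + logDisc L + c

/-- The points `0`, `1`, `-1` of the line. -/
def branch (k : Type) [Field k] : Fin 3 → k := ![0, 1, -1]

/-- The function `t` on the curve with the ring of functions `A`. -/
noncomputable def coord (k A : Type) [Field k] [CommRing A] [Algebra k[X] A] : A :=
  algebraMap k[X] A X

/-- The point `P = φ` of the curve over `L` and the divisor `D` meet at the prime `w` of `L`: here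
the part `D_j` of `D` over the `j`-th of the points `0`, `1`, `-1` has the equations
`y_{j 1} = ⋯ = y_{j u_j} = 0`, and `|t(P)|_w ≤ 1` and for some `j` one has `|t(P) - a_j|_w < 1`
and `|y_{j i}(P)|_w < 1` for all `i`. -/
def MeetsAt {k A L : Type} [Field k] [Field L] [NumberField L] [Algebra k L] [CommRing A]
    [Algebra k A] [Algebra k[X] A] (u : Fin 3 → ℕ) (y : ∀ j, Fin (u j) → A) (φ : A →ₐ[k] L)
    (w : HeightOneSpectrum (𝓞 L)) : Prop :=
  w.valuation L (φ (coord k A)) ≤ 1 ∧
    ∃ j, w.valuation L (φ (coord k A) - algebraMap k L (branch k j)) < 1 ∧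
      ∀ i, w.valuation L (φ (y j i)) < 1

open Classical in
/-- The (absolute) truncated counting function `N_S^{(1)}(D, P)`: the sum of `log N(w) / [L : ℚ]`
over the primes `w` of `L`, not above primes in `S`, at which `P` and `D` meet. Every such prime is
counted once. -/
noncomputable def truncated {k A L : Type} [Field k] [NumberField k] [Field L] [NumberField L]
    [Algebra k L] [CommRing A] [Algebra k A] [Algebra k[X] A]
    (S : Finset (HeightOneSpectrum (𝓞 k))) (u : Fin 3 → ℕ) (y : ∀ j, Fin (u j) → A)
    (φ : A →ₐ[k] L) : ℝ :=
  (∑ᶠ w : HeightOneSpectrum (𝓞 L),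
      if (∀ p ∈ S, w.asIdeal.comap (algebraMap (𝓞 k) (𝓞 L)) ≠ p.asIdeal) ∧ MeetsAt u y φ w
      then Real.log (Ideal.absNorm w.asIdeal) else 0) / Module.finrank ℚ L

/-- `1 - (∑_j dim (A / F_j)) / N`, where `N` is the rank of `A` over `k[t]`: the number
`deg (K_C + D) / N` for the curve `C`. -/
noncomputable def degree (k : Type) {A : Type} [Field k] [CommRing A] [Algebra k A]
    [Algebra k[X] A] (F : Fin 3 → Ideal A) : ℝ :=
  1 - (∑ j, (Module.finrank k (A ⧸ F j) : ℝ)) / Module.finrank k[X] A

/-- The truncated Vojta inequality with discriminant term for the points of degree at most `r`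
(over `ℚ`) on all curves over all number fields and all reduced divisors: for all number fields `k`,
all Dedekind domains `A`, finite over `k[t]` and containing it, all closed subsets `D_j`, given by
`y_{j 1} = ⋯ = y_{j u_j} = 0`, and ideals `F_j ≠ 0` of `A` such that `D_j` and the zeros of `F_j`
together contain the fibre over the `j`-th of the points `0`, `1`, `-1`, all finite sets `S` of
primes of `k` and all `κ > 0` there is `c` such that all points `P = φ` over all number fields
`L ⊇ k` of degree at most `r`, with `t(P)` different from `0`, `1`, `-1`, satisfy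
`(deg (K_C + D) / N - κ) h(t(P)) ≤ N_S^{(1)}(D, P) + d(L) + c`. -/
def CurveInequality (r : ℕ) : Prop :=
  ∀ (k A : Type) [Field k] [NumberField k] [CommRing A] [IsDedekindDomain A] [Algebra k A]
    [Algebra k[X] A] [IsScalarTower k k[X] A] [Module.Finite k[X] A] [FaithfulSMul k[X] A]
    (u : Fin 3 → ℕ) (y : ∀ j, Fin (u j) → A) (F : Fin 3 → Ideal A), (∀ j, F j ≠ ⊥) →
    (∀ j i, ∀ e ∈ F j, y j i * e ∈
      (Ideal.span {coord k A - algebraMap k A (branch k j)}).radical) →
    ∀ (S : Finset (HeightOneSpectrum (𝓞 k))) (κ : ℝ), 0 < κ → ∃ c : ℝ,
      ∀ (L : Type) [Field L] [NumberField L] [Algebra k L], Module.finrank ℚ L ≤ r →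
      ∀ φ : A →ₐ[k] L, (∀ j, φ (coord k A) ≠ algebraMap k L (branch k j)) →
        (degree k F - κ) * height (φ (coord k A)) ≤ truncated S u y φ + logDisc L + c

open Pool.Agent.H431.OC

theorem to_LOne {k : Type} [Field k] [NumberField k] {f : k[X]} (h : SinglePair k f) :
    LOne k f := by
  intro ν ε hε
  obtain ⟨c, hc⟩ := h ν ε hε
  refine ⟨max c 0, le_max_right _ _, fun M _ _ _ hM x y hxy => ?_⟩
  have h1 := hc M hM x y hxy
  unfold height logDisc infinityCount at h1
  have hd : (0 : ℝ) < Module.finrank ℚ M := by exact_mod_cast Module.finrank_pos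
  have hs : (∑ᶠ w : HeightOneSpectrum (𝓞 M), if 1 < w.valuation M x then
      Real.log (Ideal.absNorm w.asIdeal : ℝ) else 0) = sm (fun v => po (-ord v x)) := by
    unfold sm
    refine finsum_congr fun w => ?_
    show _ = po (-ord w x) * Pool.Agent.Q290.NF.ell w
    by_cases hw : 1 < w.valuation M x
    · have h2 := (ord_neg_iff w x).2 hw
      rw [if_pos hw, po_pos (n := -ord w x) (by omega), one_mul]
      rfl
    · have h2 : ¬ ord w x < 0 := fun h3 => hw ((ord_neg_iff w x).1 h3)
      rw [if_neg hw, po_nonpos (n := -ord w x) (by omega), zero_mul]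
  rw [hs] at h1
  have h2 := mul_le_mul_of_nonneg_right h1 hd.le
  have e1 : (((f.natDegree : ℝ) - 2) / 2 - ε) *
      (Height.logHeight₁ x / Module.finrank ℚ M) * Module.finrank ℚ M =
      (((f.natDegree : ℝ) - 2) / 2 - ε) * Height.logHeight₁ x := by
    field_simp
  have e2 : (sm (fun v : HeightOneSpectrum (𝓞 M) => po (-ord v x)) / Module.finrank ℚ M +
      Real.log |(NumberField.discr M : ℝ)| / Module.finrank ℚ M + c) *
      Module.finrank ℚ M = Real.log |(NumberField.discr M : ℝ)| +
      sm (fun v => po (-ord v x)) + Module.finrank ℚ M * c := by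
    field_simp
    ring
  rw [e1, e2] at h2
  refine h2.trans ?_
  unfold DD
  have : (Module.finrank ℚ M : ℝ) * c ≤ Module.finrank ℚ M * max c 0 :=
    mul_le_mul_of_nonneg_left (le_max_left _ _) hd.le
  linarith

/-- **The truncated inequality for all pairs of a curve and a reduced divisor follows from the
inequality for one pair.** Let `k` be a number field and `f` a polynomial over `k` of degree
`n ≥ 3` without multiple roots. If the single pair `(C, D)`, `C : y ^ 2 = f(x)` and `D` the reduced
divisor of the points at infinity (for instance an elliptic curve and its origin), satisfies the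
inequality of the conjecture for the points of bounded degree, that is,
`((n - 2) / 2 - ε) h(x) ≤ N^{(1)}(D, P) + d(P) + c(ν, ε)`, then the inequality holds for the points
of bounded degree on all curves over all number fields, for all reduced divisors and all `S`. -/
theorem result (k : Type) [Field k] [NumberField k] (f : k[X]) (hf : Squarefree f)
    (h3 : 3 ≤ f.natDegree) (h : SinglePair k f) (r : ℕ) : CurveInequality r :=
  Pool.Agent.Results.MP_44a246_nt.ThinSetsSuffice.to_curve
    (thin_of_three (fun ν _ hε => LOne_three hf h3 (to_LOne h) ν hε) r)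

end Pool.Agent.Results.MP_44a246_nt.OnePairSuffices
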