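import Pool.Agent.H431.EC.Go

/-!
# Products of curves: the exceptional set of the conjecture grows with the degree of the points

The pair `(X, D)` is a product of pairs `(C_i, D_i)`: `X = C_1 × … × C_n` and `D` is the normal
crossings divisor of the points with a coordinate in some `D_i`. Each pair `(C_i, D_i)` is

* `ℙ¹` with `D_i = {0, 1, ∞}`, or
* a curve `y² = f(x)`, `f` squarefree of degree at least `3`, with `D_i = ` the points above
  `x = ∞` (for example an elliptic curve with its origin), or
* a curve `C_i` with a finite map `x_i : C_i → ℙ¹` that is étale outside `0`, `1`, `∞`, and any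
  reduced divisor `D_i` supported in `x_i⁻¹ {0, 1, ∞}` with `deg (K_{C_i} + D_i) ≥ 0`. By Belyĭ's
  theorem, every smooth projective curve over `K` with every reduced divisor is of this form for a
  suitable map `x_i`.

Here `K_X + D ≡ ∑_i κ_i x_i^*(∞)`, `A = ∑_i x_i^*(∞)` is ample, `h_{K_X + D}(P) =
∑_i κ_i h(x_i) + o(h_A(P))`, `h_A(P) = ∑_i h(x_i) + O(1)`. All heights, counting functions and
discriminants are normalised relative to `K`, as in the problem.

The inequality has a further term `m(P)`, an arbitrary function that is bounded below. With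
`m(P) = h_{D'}(P) - N_S^{(1)}(D', P)` for an effective divisor `D'` on `X`, it is a consequence of the
inequality of the problem for the divisor `D + D'`.
-/

set_option autoImplicit false

namespace Pool.Agent.Results.MP_44a246_nt.ProductsWithArbitraryCurves

open IsDedekindDomain NumberField

/-- A smooth projective curve `C` with a map `x : C → ℙ¹` that is étale outside `0`, `1`, `∞`, and
a reduced divisor `D` supported in `x⁻¹ {0, 1, ∞}`. -/
structure Cover (K : Type) [Field K] : Type 1 where
  /-- The ring of the functions on `C` that are regular outside `x⁻¹(∞)`. -/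
  B : Type
  [ring : CommRing B]
  /-- `B` is an algebra over the ring `K[X]` by means of `X ↦ x`. -/
  [algebra : Algebra (Polynomial K) B]
  /-- The number `κ = deg (K_C + D) / deg x`. -/
  κ : ℝ

attribute [instance] Cover.ring Cover.algebra

/-- A pair `(C, D)`: `line` is `ℙ¹` with `D = {0, 1, ∞}`, `affine f` is the smooth projective curve
`y² = f(x)` with `D = ` the points above `x = ∞`, and `cover c` is a curve with a map `x` to `ℙ¹`
that is étale outside `0`, `1`, `∞`, and a divisor `D` supported in `x⁻¹ {0, 1, ∞}`. -/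
inductive Pair (K : Type) [Field K] : Type 1
  | line : Pair K
  | affine (f : Polynomial K) : Pair K
  | cover (c : Cover K) : Pair K

/-- The polynomial `f` is squarefree of degree at least `3`; the algebra `B` is finite and free over
`K[X]`, and étale outside `X = 0` and `X = 1`. -/
def Pair.Valid {K : Type} [Field K] : Pair K → Prop
  | .line => True
  | .affine f => Squarefree f ∧ 3 ≤ f.natDegree
  | .cover c => Pool.Agent.H431.EC.IsEtaleCover K c.B

/-- The number `κ` with `K_C + D ≡ κ x^*(∞)`. -/
noncomputable def Pair.kappa {K : Type} [Field K] : Pair K → ℝ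
  | .line => 1
  | .affine f => ((f.natDegree : ℝ) - 2) / 2
  | .cover c => c.κ

/-- The weight of a pair, for the inequality with `ε` and the factor `lam` (for `lam = 1` the weights
are `1 - ε`, `1 - 4 ε` and `κ - ε`). -/
noncomputable def Pair.weight {K : Type} [Field K] (ε lam : ℝ) : Pair K → ℝ
  | .line => (1 - ε) / lam
  | .affine f => 1 - 4 * (((f.natDegree : ℝ) - 2) / 2 - (((f.natDegree : ℝ) - 2) / 2 - ε) / lam)
  | .cover c => (c.κ - ε) / lam

/-- The indices of the coordinates other than `x`: there are none for the line, there is one for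
the curve `y² = f(x)`, and every function in `B` is a coordinate for the pairs `cover c`. -/
def Pair.Coord {K : Type} [Field K] : Pair K → Type
  | .line => Empty
  | .affine _ => Unit
  | .cover c => c.B

/-- `(x, y)` is a point of `C` outside `D`. For the pairs `cover c` it is a point outside
`x⁻¹ {0, 1, ∞}`: `y` is a ring homomorphism from `B` to `L` that is `p ↦ p(x)` on `K[X]`. -/
def Pair.Lies {K : Type} [Field K] {L : Type} [Field L] [Algebra K L] :
    (P : Pair K) → L → (P.Coord → L) → Prop
  | .line, x, _ => x ≠ 0 ∧ x ≠ 1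
  | .affine f, x, y => y () ^ 2 = Polynomial.aeval x f
  | .cover c, x, y => x ≠ 0 ∧ x ≠ 1 ∧ ∃ χ : c.B →+* L,
      (∀ p : Polynomial K, χ (algebraMap (Polynomial K) c.B p) = Polynomial.aeval x p) ∧
      ∀ z : c.B, y z = χ z

/-- The point `(x, y)` of `C` and the divisor `D` (for the pairs `cover c`: the divisor
`x⁻¹ {0, 1, ∞}`, which contains `D`) meet at the prime `w`. -/
def Pair.MeetsAt {K : Type} [Field K] {L : Type} [Field L] [NumberField L] :
    Pair K → L → HeightOneSpectrum (𝓞 L) → Prop
  | .line, x, w => w.valuation L x < 1 ∨ w.valuation L (x - 1) < 1 ∨ 1 < w.valuation L x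
  | .affine _, x, w => 1 < w.valuation L x
  | .cover _, x, w => w.valuation L x < 1 ∨ w.valuation L (x - 1) < 1 ∨ 1 < w.valuation L x

/-- The height of the point `x ∈ L` of the line, relative to `K`. -/
noncomputable def height (K : Type) {L : Type} [Field K] [Field L] [NumberField L] [Algebra K L]
    (x : L) : ℝ :=
  Height.logHeight₁ x / Module.finrank K L

/-- The logarithmic discriminant `d_{L/K} = log N(D_{L/K}) / [L : K]`
(`= log |disc L| / [L : K] - log |disc K|`). -/
noncomputable def logDisc (K L : Type) [Field K] [NumberField K] [Field L] [NumberField L]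
    [Algebra K L] : ℝ :=
  Real.log |(NumberField.discr L : ℝ)| / Module.finrank K L -
    Real.log |(NumberField.discr K : ℝ)|

open Classical in
/-- The truncated counting function `N_S^{(1)}(D, P)` of the point `P` with the coordinates
`P_i = (x_i, y_i)`: the sum of `log N(w) / [L : K]` over the primes `w` of `L`, not above primes in
`S`, at which `P` and `D` meet. Every such prime is counted once. -/
noncomputable def truncated {K : Type} [Field K] [NumberField K]
    (S : Finset (HeightOneSpectrum (𝓞 K))) {n : ℕ} (F : Fin n → Pair K) {L : Type} [Field L]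
    [NumberField L] [Algebra K L] (x : Fin n → L) : ℝ :=
  (∑ᶠ w : HeightOneSpectrum (𝓞 L),
      if (∀ p ∈ S, w.asIdeal.comap (algebraMap (𝓞 K) (𝓞 L)) ≠ p.asIdeal) ∧
        ∃ i, (F i).MeetsAt (x i) w
      then Real.log (Ideal.absNorm w.asIdeal) else 0) / Module.finrank K L

/-- A function on the points of `X` over the finite extensions `L` of `K`. -/
def PointFunction {K : Type} [Field K] {n : ℕ} (F : Fin n → Pair K) : Type 1 :=
  ∀ (L : Type) [Field L] [NumberField L] [Algebra K L],
    (Fin n → L) → (∀ i, (F i).Coord → L) → ℝ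

/-- The function is bounded below. -/
def PointFunction.BoundedBelow {K : Type} [Field K] {n : ℕ} {F : Fin n → Pair K}
    (m : PointFunction F) : Prop :=
  ∃ B : ℝ, ∀ (L : Type) [Field L] [NumberField L] [Algebra K L] (x : Fin n → L)
    (y : ∀ i, (F i).Coord → L), B ≤ m L x y

/-- The hypersurface `G(x_1, …, x_n) = 0` contains an exceptional set for `(X, D)`, `ε` and the
points of degree at most `r` over `K`: there is `C` such that
`∑_i κ_i h(x_i) + m(P) ≤ N_S^{(1)}(D, P) + ε h_A(P) + lam d_{K(P)/K} + C`
for all points `P` of `X` outside `D` (and outside `x_i⁻¹ {0, 1, ∞}` for the pairs `cover c`)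
with `[K(P) : K] ≤ r` and `G(P) ≠ 0` (`lam = 1` in the conjecture). -/
def Exceptional {K : Type} [Field K] [NumberField K] (S : Finset (HeightOneSpectrum (𝓞 K)))
    {n : ℕ} {F : Fin n → Pair K} (m : PointFunction F) (r : ℕ) (ε lam : ℝ)
    (G : MvPolynomial (Fin n) K) : Prop :=
  ∃ C : ℝ, ∀ (L : Type) [Field L] [NumberField L] [Algebra K L] (x : Fin n → L)
    (y : ∀ i, (F i).Coord → L),
    IntermediateField.adjoin K (Set.range x ∪ ⋃ i, Set.range (y i)) = ⊤ →
    Module.finrank K L ≤ r → (∀ i, (F i).Lies (x i) (y i)) → MvPolynomial.aeval x G ≠ 0 →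
    ∑ i, (F i).kappa * height K (x i) + m L x y ≤
      truncated S F x + ε * ∑ i, height K (x i) + lam * logDisc K L + C

open Pool.Agent.H431.OC Pool.Agent.H431.MT Pool.Agent.H431.LF Pool.Agent.Q290.NF

/-- the stage of a pair -/
noncomputable def stage {K : Type} [Field K] (P : Pair K) (k : Type) [Field k] [Algebra K k] :
    St k :=
  match P with
  | .line => Lf k
  | .affine f => Cf po (f.map (algebraMap K k))
  | .cover c => Pool.Agent.H431.EC.Cs K c.B k

theorem reg_stage {K : Type} [Field K] (P : Pair K) (k : Type) [Field k] [Algebra K k] :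
    Reg (stage P k) := by
  cases P with
  | line => exact reg_Lf k
  | affine f =>
    exact reg_Cf Pw_po.zero Pw_po.nonneg Pw_po.mul_le _
  | cover c => exact Pool.Agent.H431.EC.reg_Cs k

theorem hex_stage {K : Type} [Field K] [NumberField K] {P : Pair K} (hP : P.Valid) {ε lam : ℝ}
    (hw : 0 ≤ P.weight ε lam) (k : Type) [Field k] [NumberField k] [Algebra K k] :
    ∃ (F : Type) (_ : Field F) (_ : NumberField F) (_ : Algebra k F) (_ : Algebra K F)
      (_ : IsScalarTower K k F),
      Go F (T0 F) (P.weight ε lam) (stage P F) ((P.kappa - ε) / lam) := by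
  cases P with
  | line =>
    exact ⟨k, inferInstance, inferInstance, Algebra.id k, inferInstance, inferInstance,
      go_Lf (k := k) ((1 - ε) / lam)⟩
  | affine f =>
    obtain ⟨hf, h3⟩ := hP
    obtain ⟨δ, hδ⟩ : ∃ δ : ℝ, δ = ((f.natDegree : ℝ) - 2) / 2 -
      (((f.natDegree : ℝ) - 2) / 2 - ε) / lam := ⟨_, rfl⟩
    have hw' : 0 ≤ 1 - 4 * δ := by
      rw [hδ]
      exact hw
    obtain ⟨F, i1, i2, i3, h⟩ := exists_inf' (k := k) (f := f.map (algebraMap K k))
      ((PerfectField.separable_iff_squarefree.2 hf).map (f := algebraMap K k)).squarefree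
      (by rwa [Polynomial.natDegree_map]) (ε := δ) (by linarith)
    let _ : Algebra K F := ((algebraMap k F).comp (algebraMap K k)).toAlgebra
    have hst : IsScalarTower K k F := IsScalarTower.of_algebraMap_eq fun _ => rfl
    refine ⟨F, i1, i2, i3, inferInstance, hst, ?_⟩
    rw [Polynomial.natDegree_map, Polynomial.map_map] at h
    have e1 : ((f.natDegree : ℝ) - 2) / 2 - δ = (((f.natDegree : ℝ) - 2) / 2 - ε) / lam := by
      rw [hδ]
      ring
    rw [e1, hδ] at h
    exact h
  | cover c =>
    exact ⟨k, inferInstance, inferInstance, Algebra.id k, inferInstance, inferInstance,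
      Pool.Agent.H431.EC.go_Cs hP ((c.κ - ε) / lam)⟩

theorem hup_stage {K : Type} [Field K] {P : Pair K} {κt κ : ℝ} (k F : Type) [Field k]
    [NumberField k] [Field F] [NumberField F] [Algebra K k] [Algebra K F] [Algebra k F]
    [IsScalarTower K k F] (h : Go k (T0 k) κt (stage P k) κ) :
    Go F (T0 F) κt (stage P F) κ := by
  cases P with
  | line => exact up_Lf h
  | affine f =>
    have h1 := up_Cf (F := F) h
    rw [Polynomial.map_map, ← IsScalarTower.algebraMap_eq] at h1
    exact h1
  | cover c => exact Pool.Agent.H431.EC.up_Cs h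

theorem pt_stage {K : Type} [Field K] {P : Pair K} (k E : Type) [Field k] [Algebra K k] [Field E]
    [NumberField E] [Algebra k E] [Algebra K E] [IsScalarTower K k E] {b x : E}
    (h : (stage P k).pt E b x) : ∃ y : P.Coord → E, P.Lies x y := by
  cases P with
  | line => exact ⟨fun _ => 0, h.1, h.2⟩
  | affine f =>
    obtain ⟨y, hy⟩ := h
    rw [Polynomial.aeval_map_algebraMap] at hy
    exact ⟨fun _ => y, hy⟩
  | cover c =>
    obtain ⟨h0, h1, χ, hχ⟩ := h
    refine ⟨χ, h0, h1, χ, fun p => ?_, fun _ => rfl⟩
    rw [hχ, ← IsScalarTower.algebraMap_eq]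
    rfl

theorem hom_sub {R L E : Type} [CommRing R] [Field L] [Field E] (i : L →+* E) (y : R → L)
    (χ : R →+* E) (h : ∀ z, i (y z) = χ z) : ∃ χ' : R →+* L, ∀ z, y z = χ' z :=
  ⟨{ toFun := y
     map_one' := i.injective (by rw [h, map_one, map_one])
     map_mul' := fun a c => i.injective (by rw [h, map_mul, map_mul, h, h])
     map_zero' := i.injective (by rw [h, map_zero, map_zero])
     map_add' := fun a c => i.injective (by rw [h, map_add, map_add, h, h]) }, fun _ => rfl⟩

theorem lies_sub {K : Type} [Field K] {P : Pair K} {L E : Type} [Field L] [Field E] [Algebra K L]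
    [Algebra K E] [Algebra L E] [IsScalarTower K L E] {x : L} {y : P.Coord → L}
    (h : P.Lies (algebraMap L E x) (fun j => algebraMap L E (y j))) : P.Lies x y := by
  have inj := (algebraMap L E).injective
  cases P with
  | line =>
    obtain ⟨h0, h1⟩ := h
    exact ⟨fun h => h0 (by rw [h, map_zero]), fun h => h1 (by rw [h, map_one])⟩
  | affine f =>
    have h' : algebraMap L E (y ()) ^ 2 = Polynomial.aeval (algebraMap L E x) f := h
    show y () ^ 2 = Polynomial.aeval x f
    apply inj
    rw [map_pow, h', Polynomial.aeval_algebraMap_apply]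
  | cover c =>
    obtain ⟨h0, h1, χ, h2, h3⟩ := h
    obtain ⟨χ', hχ'⟩ := hom_sub (algebraMap L E) (R := c.B) y χ h3
    refine ⟨fun h => h0 (by rw [h, map_zero]), fun h => h1 (by rw [h, map_one]), χ',
      fun p => ?_, hχ'⟩
    apply inj
    rw [← hχ']
    refine (h3 _).trans ?_
    rw [h2, Polynomial.aeval_algebraMap_apply]

theorem meets_w3 {L E : Type} [Field L] [NumberField L] [Field E] [NumberField E] [Algebra L E]
    {x : L} (h0 : x ≠ 0) (h1 : x ≠ 1) {v : HeightOneSpectrum (𝓞 L)}
    (hv : v.valuation L x < 1 ∨ v.valuation L (x - 1) < 1 ∨ 1 < v.valuation L x)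
    (w : HeightOneSpectrum (𝓞 E)) (hw : w.asIdeal.LiesOver v.asIdeal) :
    1 ≤ w3 (algebraMap L E x) w := by
  rw [w3_ext v w (ram_ne v w hw) (ord_above v w hw)]
  apply w3_ge
  have h2 := po_nonneg (ord v x)
  have h3 := po_nonneg (ord v (x - 1))
  have h4 := po_nonneg (-ord v x)
  have key : 0 < w3 x v := by
    unfold w3
    rcases hv with hv | hv | hv
    · rw [← ord_pos_iff v h0] at hv
      rw [po_pos hv]
      linarith
    · rw [← ord_pos_iff v (sub_ne_zero.2 h1)] at hv
      rw [po_pos hv]
      linarith
    · rw [← ord_neg_iff] at hv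
      rw [po_pos (n := -ord v x) (by omega)]
      linarith
  exact key.ne'

/-- the weights at the primes at which the point and the divisor meet -/
theorem meets_wt {K : Type} [Field K] {P : Pair K} (k : Type) [Field k] [Algebra K k]
    {L E : Type} [Field L] [NumberField L] [Field E] [NumberField E] [Algebra L E]
    [Algebra k E] [Algebra K L] {x : L} {y : P.Coord → L} (hl : P.Lies x y)
    {v : HeightOneSpectrum (𝓞 L)}
    (hv : P.MeetsAt x v) (w : HeightOneSpectrum (𝓞 E)) (hw : w.asIdeal.LiesOver v.asIdeal) :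
    1 ≤ (stage P k).wt E (algebraMap L E x) w := by
  have he := ram_ne v w hw
  have hvw := ord_above v w hw
  have he0 : (0 : ℤ) < (v.asIdeal.ramificationIdx' w.asIdeal : ℤ) := by
    exact_mod_cast Nat.pos_of_ne_zero he
  cases P with
  | line => exact meets_w3 hl.1 hl.2 hv w hw
  | affine f =>
    show 1 ≤ po (-ord w (algebraMap L E x))
    have hv' : 1 < v.valuation L x := hv
    rw [← ord_neg_iff] at hv'
    rw [hvw, po_pos]
    have := mul_pos he0 (neg_pos.2 hv')
    rw [mul_neg] at this
    exact this
  | cover c => exact meets_w3 hl.1 hl.2.1 hv w hw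

/-- finiteness of the set of primes at which a point and the divisor meet -/
theorem meets_fin {K : Type} [Field K] {P : Pair K} {L : Type} [Field L] [NumberField L]
    [Algebra K L] {x : L} {y : P.Coord → L} (hl : P.Lies x y) :
    (Set.Finite {v : HeightOneSpectrum (𝓞 L) | P.MeetsAt x v}) := by
  let _ : Algebra K L := inferInstance
  refine ((reg_stage P L).supp L x).subset fun v hv => ?_
  have hl' : v.asIdeal.LiesOver v.asIdeal := ⟨by
    show v.asIdeal = Ideal.comap (algebraMap (𝓞 L) (𝓞 L)) v.asIdeal
    rw [Algebra.algebraMap_self, Ideal.comap_id]⟩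
  have h := meets_wt (P := P) L (E := L) hl hv v hl'
  rw [Function.mem_support]
  intro h0
  have e1 : algebraMap L L x = x := rfl
  rw [e1, h0] at h
  linarith

/-- the inequality, multiplied by the degree -/
theorem ineq_mul {K : Type} [Field K] [NumberField K] {S : Finset (HeightOneSpectrum (𝓞 K))}
    {n : ℕ} {F : Fin n → Pair K} {ε lam C : ℝ} {L : Type} [Field L] [NumberField L]
    [Algebra K L] {x : Fin n → L} {y : ∀ i, (F i).Coord → L}
    (hl : ∀ i, (F i).Lies (x i) (y i))
    (h : ∑ i, (F i).kappa * height K (x i) ≤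
      truncated S F x + ε * ∑ i, height K (x i) + lam * logDisc K L + C) :
    ∃ B : Finset (HeightOneSpectrum (𝓞 L)), (∀ v ∈ B, ∃ i, (F i).MeetsAt (x i) v) ∧
      ∑ i, ((F i).kappa - ε) * Height.logHeight₁ (x i) ≤ ∑ v ∈ B, ell v + lam * DD L +
        Module.finrank K L * (C - lam * DD K) := by
  classical
  have hfin : (Set.Finite {w : HeightOneSpectrum (𝓞 L) |
      (∀ p ∈ S, w.asIdeal.comap (algebraMap (𝓞 K) (𝓞 L)) ≠ p.asIdeal) ∧
        ∃ i, (F i).MeetsAt (x i) w}) := by
    refine (Set.finite_iUnion fun i : Fin n => meets_fin (hl i)).subset ?_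
    intro w hw
    obtain ⟨i, hi⟩ := hw.2
    exact Set.mem_iUnion.2 ⟨i, hi⟩
  refine ⟨hfin.toFinset, fun v hv => ?_, ?_⟩
  · rw [Set.Finite.mem_toFinset] at hv
    exact hv.2
  have h3 : (∑ᶠ w : HeightOneSpectrum (𝓞 L),
      if (∀ p ∈ S, w.asIdeal.comap (algebraMap (𝓞 K) (𝓞 L)) ≠ p.asIdeal) ∧
        ∃ i, (F i).MeetsAt (x i) w
      then Real.log (Ideal.absNorm w.asIdeal) else 0) = ∑ w ∈ hfin.toFinset, ell w := by
    rw [finsum_eq_sum_of_support_subset (s := hfin.toFinset)]
    · refine Finset.sum_congr rfl fun w hw => ?_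
      rw [Set.Finite.mem_toFinset, Set.mem_ofPred_eq] at hw
      rw [if_pos hw]
      rfl
    · intro w hw
      rw [Set.Finite.coe_toFinset]
      by_contra hc
      exact hw (if_neg hc)
  unfold truncated logDisc height at h
  rw [h3] at h
  have hp : (0 : ℝ) < Module.finrank K L := by
    have : Module.Finite K L := Module.Finite.of_restrictScalars_finite ℚ K L
    exact_mod_cast Module.finrank_pos
  have h4 := mul_le_mul_of_nonneg_right h hp.le
  have e1 : (∑ i, (F i).kappa * (Height.logHeight₁ (x i) / (Module.finrank K L : ℝ))) *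
      Module.finrank K L = ∑ i, (F i).kappa * Height.logHeight₁ (x i) := by
    rw [Finset.sum_mul]
    refine Finset.sum_congr rfl fun i _ => ?_
    field_simp
  have e3 : ∑ i, ((F i).kappa - ε) * Height.logHeight₁ (x i) =
      ∑ i, (F i).kappa * Height.logHeight₁ (x i) - ε * ∑ i, Height.logHeight₁ (x i) := by
    rw [Finset.mul_sum, ← Finset.sum_sub_distrib]
    refine Finset.sum_congr rfl fun i _ => ?_
    ring
  have e2 : ((∑ w ∈ hfin.toFinset, ell w) / (Module.finrank K L : ℝ) +
      ε * (∑ i, Height.logHeight₁ (x i) / (Module.finrank K L : ℝ)) +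
      lam * (Real.log |(NumberField.discr L : ℝ)| / Module.finrank K L -
        Real.log |(NumberField.discr K : ℝ)|) + C) * Module.finrank K L =
      ∑ w ∈ hfin.toFinset, ell w + ε * ∑ i, Height.logHeight₁ (x i) +
        lam * Real.log |(NumberField.discr L : ℝ)| +
        Module.finrank K L * (C - lam * Real.log |(NumberField.discr K : ℝ)|) := by
    rw [← Finset.sum_div]
    field_simp
    ring
  rw [e1, e2] at h4
  rw [e3]
  unfold DD
  linarith

theorem exceptional_zero {K : Type} [Field K] [NumberField K]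
    {S : Finset (HeightOneSpectrum (𝓞 K))} {n : ℕ} {F : Fin n → Pair K} {m : PointFunction F}
    (hm : m.BoundedBelow) {r : ℕ} {ε lam : ℝ} {G : MvPolynomial (Fin n) K}
    (h : Exceptional S m r ε lam G) :
    ∃ C : ℝ, ∀ (L : Type) [Field L] [NumberField L] [Algebra K L] (x : Fin n → L)
      (y : ∀ i, (F i).Coord → L),
      IntermediateField.adjoin K (Set.range x ∪ ⋃ i, Set.range (y i)) = ⊤ →
      Module.finrank K L ≤ r → (∀ i, (F i).Lies (x i) (y i)) → MvPolynomial.aeval x G ≠ 0 →
      ∑ i, (F i).kappa * height K (x i) ≤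
        truncated S F x + ε * ∑ i, height K (x i) + lam * logDisc K L + C := by
  obtain ⟨B, hB⟩ := hm
  obtain ⟨C, H⟩ := h
  refine ⟨C - B, fun L _ _ _ x y h1 h2 h3 h4 => ?_⟩
  have h5 := H L x y h1 h2 h3 h4
  have h6 := hB L x y
  linarith

/-- **Products of curves: the exceptional set grows with the degree of the points.** Let `lam ≥ 1`,
`w_i ≥ 0` for all `i`, and `∑_i w_i > 1`, where `w_i` is the weight of the pair `(C_i, D_i)`; in
the conjecture `lam = 1`, and then `w_i = 1 - ε` for `(ℙ¹, {0, 1, ∞})`, `w_i = 1 - 4 ε` for the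
curves `y² = f(x)` with the points at infinity, and `w_i = κ_i - ε` for the pairs `cover c`. For all
`d` there is `R` such that, for all `S`, all functions `m(P)` that are bounded below and all `r ≥ R`,
no hypersurface `G(x_1, …, x_n) = 0` with `G ≠ 0` of degree at most `d` in each variable contains an
exceptional set for the points of degree at most `r`, for the inequality with the term `m(P)` in
which the logarithmic discriminant has the factor `lam`. If all pairs are `(ℙ¹, {0, 1, ∞})` and
`d ≥ 1`, one can take `R = (2 d)^(n - 1)`. -/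
theorem result (K : Type) [Field K] [NumberField K] (n : ℕ) (F : Fin n → Pair K)
    (hF : ∀ i, (F i).Valid) (ε lam : ℝ) (hlam : 1 ≤ lam) (hw : ∀ i, 0 ≤ (F i).weight ε lam)
    (h1 : 1 < ∑ i, (F i).weight ε lam) (d : ℕ) :
    ∃ R : ℕ, ((∀ i, F i = .line) → 1 ≤ d → R = (2 * d) ^ (n - 1)) ∧
      ∀ (S : Finset (HeightOneSpectrum (𝓞 K))) (m : PointFunction F), m.BoundedBelow →
        ∀ (r : ℕ) (G : MvPolynomial (Fin n) K), G ≠ 0 → (∀ i, G.degreeOf i ≤ d) →
          Exceptional S m r ε lam G → r < R := by
  classical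
  have hlam0 : 0 < lam := by linarith
  have hn : 1 ≤ n := by
    rcases Nat.eq_zero_or_pos n with rfl | h
    · rw [Finset.univ_eq_empty, Finset.sum_empty] at h1
      exact absurd h1 (by norm_num)
    · exact h
  have hn0 : (0 : ℝ) < n := by exact_mod_cast hn
  by_cases hcase : (∀ i, F i = .line) ∧ 1 ≤ d
  · obtain ⟨hline, hd⟩ := hcase
    refine ⟨(2 * d) ^ (n - 1), fun _ _ => rfl, fun S m hm r G hG hdeg hE => ?_⟩
    by_contra hr
    rw [not_lt] at hr
    obtain ⟨C, H⟩ := exceptional_zero hm hE
    obtain ⟨B, hB⟩ : ∃ B, B = Nat.log 2 d + 1 := ⟨_, rfl⟩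
    have hB1 : d < 2 ^ B := by
      rw [hB]
      exact Nat.lt_pow_succ_log_self (by norm_num) d
    have hB2 : 2 ^ B ≤ 2 * d := by
      rw [hB, pow_succ, mul_comm]
      exact Nat.mul_le_mul_left 2 (Nat.pow_log_le_self 2 (by omega))
    have hc : 1 < (1 - ε) / lam * n := by
      have e1 : ∑ i, (F i).weight ε lam = (1 - ε) / lam * n := by
        have e2 : ∀ i, (F i).weight ε lam = (1 - ε) / lam := by
          intro i
          rw [hline i]
          rfl
        rw [Finset.sum_congr rfl fun i _ => e2 i, Finset.sum_const, Finset.card_univ,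
          Fintype.card_fin, nsmul_eq_mul, mul_comm]
      rwa [e1] at h1
    obtain ⟨L, i1, i2, i3, P, hP, hdegL, hP01, hGP, hmain⟩ := main K n B hn G hG (by
      intro a ha i
      refine lt_of_le_of_lt ?_ hB1
      exact (MvPolynomial.monomial_le_degreeOf i ha).trans (hdeg i)) ((1 - ε) / lam) hc
        (C / lam)
    have hL : Module.finrank K L ≤ r := by
      refine hdegL.trans (le_trans ?_ hr)
      rw [mul_comm, pow_mul]
      exact Nat.pow_le_pow_left hB2 _
    have hLies : ∀ i, (F i).Lies (P i) ((fun i _ => 0 : ∀ i, (F i).Coord → L) i) := by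
      intro i
      have key : ∀ Q : Pair K, Q = .line → Q.Lies (P i) (fun _ : Q.Coord => (0 : L)) := by
        rintro Q rfl
        exact ⟨(hP01 i).1, (hP01 i).2⟩
      exact key _ (hline i)
    have hrange : IntermediateField.adjoin K (Set.range P ∪
        ⋃ i, Set.range ((fun i _ => 0 : ∀ i, (F i).Coord → L) i)) = ⊤ := by
      refine top_unique (hP ▸ ?_)
      exact IntermediateField.adjoin.mono K _ _ Set.subset_union_left
    obtain ⟨W, hW, hfin⟩ := ineq_mul (F := F) (y := fun _ _ => 0) hLies
      (H L P (fun _ _ => 0) hrange hL hLies hGP)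
    have h2 := hmain W (by
      intro w hw
      obtain ⟨i, hi⟩ := hW w hw
      refine ⟨i, ?_⟩
      have hl' : w.asIdeal.LiesOver w.asIdeal := ⟨by
        show w.asIdeal = Ideal.comap (algebraMap (𝓞 L) (𝓞 L)) w.asIdeal
        rw [Algebra.algebraMap_self, Ideal.comap_id]⟩
      have h := meets_wt (P := F i) L (E := L) (hLies i) hi w hl'
      rw [hline i] at h
      have e1 : (stage (Pair.line : Pair K) L).wt L (algebraMap L L (P i)) w = w3 (P i) w := rfl
      rw [e1] at h
      intro h0
      rw [h0] at h
      linarith)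
    have hkap : ∀ i, (F i).kappa = 1 := by
      intro i
      rw [hline i]
      rfl
    have e1 : ∑ i, ((F i).kappa - ε) * Height.logHeight₁ (P i) =
        (1 - ε) * ∑ i, Height.logHeight₁ (P i) := by
      rw [Finset.mul_sum]
      refine Finset.sum_congr rfl fun i _ => ?_
      rw [hkap i]
    rw [e1] at hfin
    have h3 := mul_lt_mul_of_pos_left h2 hlam0
    have e2 : lam * ((1 - ε) / lam * ∑ i, Height.logHeight₁ (P i)) =
        (1 - ε) * ∑ i, Height.logHeight₁ (P i) := by
      field_simp
    have e3 : lam * (DD L + ∑ v ∈ W, ell v + Module.finrank K L * (C / lam - DD K)) =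
        lam * DD L + lam * ∑ v ∈ W, ell v + Module.finrank K L * (C - lam * DD K) := by
      field_simp
    rw [e2, e3] at h3
    have h4 : 0 ≤ ∑ v ∈ W, ell v := Finset.sum_nonneg fun v _ => (ell_pos v).le
    have h5 := mul_le_mul_of_nonneg_right hlam h4
    linarith
  · obtain ⟨r0, H0⟩ := Pool.Agent.H431.EC.main_KV (K := K) (fun i => stage (F i))
      (κt := fun i => (F i).weight ε lam)
      (κ := fun i => ((F i).kappa - ε) / lam) hw h1 (fun i k _ _ => reg_stage (F i) k)
      (fun i k _ _ _ => hex_stage (hF i) (hw i) k)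
      (fun i k F' _ _ _ _ _ _ _ _ h => hup_stage k F' h) d
    refine ⟨r0 + 1, fun h h' => absurd ⟨h, h'⟩ hcase, fun S m hm r G hG hdeg hE => ?_⟩
    by_contra hr
    rw [not_lt] at hr
    obtain ⟨C, H⟩ := exceptional_zero hm hE
    obtain ⟨k, i1, i2, i3, E, j1, j2, j3, j4, j5, b, x, hb, hdegE, hpt, hGx, hineq⟩ :=
      H0 G hG hdeg (|C - lam * DD K| + 1)
    choose y hy using fun i => pt_stage (P := F i) k E (hpt i)
    obtain ⟨L, Q, hQ, hQtop⟩ := adjoin_top' (K := K)
      (Sum.elim x fun z : Σ i, (F i).Coord => y z.1 z.2)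
    have fKE : Module.Finite K E := Module.Finite.of_restrictScalars_finite ℚ K E
    have nL : NumberField L := NumberField.of_module_finite K L
    have hKL : Module.finrank K L * Module.finrank L E = Module.finrank K E :=
      Module.finrank_mul_finrank K L E
    have hLE0 : 0 < Module.finrank L E := Module.finrank_pos
    have hKL0 : 0 < Module.finrank K L := Module.finrank_pos
    have hx : ∀ i, algebraMap L E (Q (Sum.inl i)) = x i := fun i => hQ (Sum.inl i)
    have hy' : ∀ i j, algebraMap L E (Q (Sum.inr ⟨i, j⟩)) = y i j := fun i j => hQ (Sum.inr ⟨i, j⟩)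
    have hLies : ∀ i, (F i).Lies (Q (Sum.inl i)) (fun j => Q (Sum.inr ⟨i, j⟩)) := by
      intro i
      apply lies_sub (E := E)
      have e1 : (fun j => algebraMap L E (Q (Sum.inr ⟨i, j⟩))) = y i := funext fun j => hy' i j
      rw [hx, e1]
      exact hy i
    have hrange : Set.range Q = Set.range (fun i => Q (Sum.inl i)) ∪
        ⋃ i, Set.range fun j => Q (Sum.inr ⟨i, j⟩) := by
      ext z
      constructor
      · rintro ⟨i | ⟨i, j⟩, rfl⟩
        · exact Or.inl ⟨i, rfl⟩
        · exact Or.inr (Set.mem_iUnion.2 ⟨i, j, rfl⟩)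
      · rintro (⟨i, rfl⟩ | h)
        · exact ⟨_, rfl⟩
        · obtain ⟨i, j, rfl⟩ := Set.mem_iUnion.1 h
          exact ⟨_, rfl⟩
    have hGL : MvPolynomial.aeval (fun i => Q (Sum.inl i)) G ≠ 0 := by
      intro h
      apply hGx
      have h1 : algebraMap L E (MvPolynomial.aeval (fun i => Q (Sum.inl i)) G) = 0 := by
        rw [h, map_zero]
      have e0 : (⇑(algebraMap L E) ∘ fun i => Q (Sum.inl i)) = x := funext hx
      rw [← h1, ← MvPolynomial.aeval_algebraMap_apply, e0]
    have hLr : Module.finrank K L ≤ r := by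
      have h1 : Module.finrank K L ≤ Module.finrank K E := by
        rw [← hKL]
        exact Nat.le_mul_of_pos_right _ hLE0
      omega
    obtain ⟨B, hB, hfin⟩ := ineq_mul hLies (H L (fun i => Q (Sum.inl i))
      (fun i j => Q (Sum.inr ⟨i, j⟩)) (by rw [← hrange]; exact hQtop) hLr hLies hGL)
    have hineq' : Module.finrank ℚ E * (|C - lam * DD K| + 1) + DD E + sm (bw b fun _ => 0) +
        ∑ i, sm (ow b ((stage (F i) k).wt E (x i))) ≤
          ∑ i, ((F i).kappa - ε) / lam * Height.logHeight₁ (algebraMap L E (Q (Sum.inl i))) := by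
      refine hineq.trans (le_of_eq ?_)
      refine Finset.sum_congr rfl fun i _ => ?_
      rw [hx]
    have hd := desc (L := L) hb (fun i => (stage (F i) k).wt E (x i))
      (fun i => (reg_stage (F i) k).supp E _) (fun i w => (reg_stage (F i) k).nonneg E _ w) B
      (by
        intro v hv w hw
        obtain ⟨i, hi⟩ := hB v hv
        refine ⟨i, ?_⟩
        have h := meets_wt (P := F i) k (L := L) (E := E) (hLies i) hi w hw
        rw [hx] at h
        exact h) (fun i => ((F i).kappa - ε) / lam) (fun i => Q (Sum.inl i)) hineq'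
    have hQL : (Module.finrank K L : ℝ) ≤ Module.finrank ℚ L := by
      have h1 : Module.finrank ℚ K * Module.finrank K L = Module.finrank ℚ L :=
        Module.finrank_mul_finrank ℚ K L
      have h2 : 0 < Module.finrank ℚ K := Module.finrank_pos
      exact_mod_cast h1 ▸ Nat.le_mul_of_pos_left _ h2
    have hKL1 : (0 : ℝ) < Module.finrank K L := by exact_mod_cast hKL0
    have h5 : (Module.finrank K L : ℝ) * (C - lam * DD K) ≤
        Module.finrank K L * |C - lam * DD K| :=
      mul_le_mul_of_nonneg_left (le_abs_self _) hKL1.le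
    have h6 : (Module.finrank K L : ℝ) * (|C - lam * DD K| + 1) ≤
        Module.finrank ℚ L * (|C - lam * DD K| + 1) :=
      mul_le_mul_of_nonneg_right hQL (by positivity)
    have h7 := mul_le_mul_of_nonneg_left hd hlam0.le
    have e7 : lam * ∑ i, ((F i).kappa - ε) / lam * Height.logHeight₁ (Q (Sum.inl i)) =
        ∑ i, ((F i).kappa - ε) * Height.logHeight₁ (Q (Sum.inl i)) := by
      rw [Finset.mul_sum]
      refine Finset.sum_congr rfl fun i _ => ?_
      field_simp
    rw [e7] at h7
    have h8 : 0 ≤ ∑ v ∈ B, ell v := Finset.sum_nonneg fun v _ => (ell_pos v).le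
    have h9 := mul_le_mul_of_nonneg_right hlam h8
    have h10 : (0 : ℝ) ≤ Module.finrank ℚ L * (|C - lam * DD K| + 1) := by positivity
    have h11 := mul_le_mul_of_nonneg_right hlam h10
    linarith

end Pool.Agent.Results.MP_44a246_nt.ProductsWithArbitraryCurves
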